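import Pool.Agent.H38.WT.Targets

set_option autoImplicit false

namespace Pool.Agent.H45.WT

open Pool.Agent.H38.WT

theorem isTop_unique {m ℓ : ℕ} {F : Set (Set (Fin m))} {j : Fin m} {K K' : Set (Fin m)}
    (h : IsTop ℓ F j K) (h' : IsTop ℓ F j K') : K = K' :=
  Set.Subset.antisymm (h'.2.2.2 K h.1 h.2.1 h.2.2.1) (h.2.2.2 K' h'.1 h'.2.1 h'.2.2.1)

theorem topK_eq {m ℓ : ℕ} {F : Set (Set (Fin m))} {j : Fin m} {K : Set (Fin m)}
    (h : IsTop ℓ F j K) : topK ℓ F j = K := by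
  have h0 : ∃ K, IsTop ℓ F j K := ⟨K, h⟩
  unfold topK
  rw [dif_pos h0]
  exact isTop_unique (Classical.choose_spec h0) h

theorem cyc_eq {m ℓ : ℕ} {F : Set (Set (Fin m))} {j : Fin m} {K : Set (Fin m)}
    (h : IsTop ℓ F j K) : cyc ℓ F j = cycC (K ∩ {x | x ≤ j}) j := by
  unfold cyc
  rw [topK_eq h]

theorem cycC_spec (h1 : T_CYC) {m : ℕ} {C : Set (Fin m)} {j : Fin m} (hj : j ∈ C)
    (hC : ∀ x ∈ C, x ≤ j) : IsCyc C j (cycC C j) := by
  have h0 : ∃ σ, IsCyc C j σ := h1 m C j hj hC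
  unfold cycC
  rw [dif_pos h0]
  exact Classical.choose_spec h0

theorem img_one {m : ℕ} (F : Set (Set (Fin m))) : img (1 : Equiv.Perm (Fin m)) F = F := by
  ext H
  constructor
  · rintro ⟨G, hG, rfl⟩
    have : (⇑(1 : Equiv.Perm (Fin m))) '' G = G := by
      rw [Equiv.Perm.coe_one]
      exact Set.image_id G
    rwa [this]
  · intro hH
    refine ⟨H, hH, ?_⟩
    rw [Equiv.Perm.coe_one]
    exact (Set.image_id H).symm

theorem pf_ONE (h1 : T_CYC) (h2 : T_TOP) (h3 : T_TPI) (h4 : T_STN) (h5 : T_STP) (_h6 : T_CFI) :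
    T_ONE := by
  intro m ℓ F j hml hF
  by_cases hK : ∃ K, IsTop ℓ F j K
  · obtain ⟨K, hK⟩ := hK
    have hjK : j ∈ K := hK.2.1
    have hc : cyc ℓ F j = cycC (K ∩ {x | x ≤ j}) j := cyc_eq hK
    have hs : IsCyc (K ∩ {x | x ≤ j}) j (cyc ℓ F j) := by
      rw [hc]
      exact cycC_spec h1 ⟨hjK, le_refl j⟩ (fun x hx => hx.2)
    have hfix := hs.fix
    have hfix' : ∀ x, x ∉ K ∩ {x | x ≤ j} → (cyc ℓ F j).symm x = x := by
      intro x hx
      rw [Equiv.symm_apply_eq]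
      exact (hfix x hx).symm
    have t1 : IsTop ℓ (img (cyc ℓ F j) F) j K := h3 m ℓ F j K _ hml hF hK hfix
    have t2 : IsTop ℓ (img (cyc ℓ F j).symm F) j K := h3 m ℓ F j K _ hml hF hK hfix'
    refine ⟨?_, ?_, h5 m ℓ F j K _ hml hF hK hs⟩
    · exact (cyc_eq t1).trans hc.symm
    · exact (cyc_eq t2).trans hc.symm
  · have hno : ¬ ∃ G ∈ F, j ∈ G ∧ Good ℓ F j G := fun h => hK (h2 m ℓ F j hml hF h)
    have htop : topK ℓ F j = {j} := by
      unfold topK
      rw [dif_neg hK]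
    have hone : cyc ℓ F j = 1 := by
      have hs : IsCyc ({j} ∩ {x | x ≤ j}) j (cyc ℓ F j) := by
        unfold cyc
        rw [htop]
        exact cycC_spec h1 ⟨rfl, le_refl j⟩ (fun x hx => hx.2)
      have hne : ∀ x, x ≠ j → cyc ℓ F j x = x := fun x hx => hs.fix x (fun h => hx h.1)
      ext x
      rcases eq_or_ne x j with rfl | hx
      · by_contra hcon
        have h0 : cyc ℓ F x x ≠ x := fun h => hcon (by rw [h]; rfl)
        exact h0 ((cyc ℓ F x).injective (hne _ h0))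
      · rw [hne x hx]
        rfl
    have hsy : (cyc ℓ F j).symm = 1 := by
      rw [hone]
      rfl
    refine ⟨?_, ?_, ?_⟩
    · rw [hone, img_one, hone]
    · rw [hsy, img_one]
    · rw [hone, img_one]
      exact h4 m ℓ F j hno

end Pool.Agent.H45.WT
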